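import Mathlib

/-!
# MP_e4b752_al : the minimum degree of a variant of `T_n` can be smaller than `2n - r`

For `n = 8192` and a suitable `a` of rank `2` the variant `T_n^a` embeds in `T_m` with
`m = 14018 < 2n - 2`.
-/

set_option autoImplicit false

namespace Pool.Agent.Results.MP_e4b752_al.SmallDegree

/-- The rank of a transformation. -/
noncomputable def rank {n : ℕ} (a : Fin n → Fin n) : ℕ := (Set.range a).ncard

/-- The variant `T_n^a` (with product `x a y`) embeds in `T_m`. -/
def Embeds (n : ℕ) (a : Fin n → Fin n) (m : ℕ) : Prop :=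
  ∃ φ : (Fin n → Fin n) → (Fin m → Fin m), Function.Injective φ ∧
    ∀ x y : Fin n → Fin n, φ (x ∘ a ∘ y) = φ x ∘ φ y

/-- The minimum degree `μ(T_n^a)`. -/
noncomputable def minDegree (n : ℕ) (a : Fin n → Fin n) : ℕ :=
  sInf {m : ℕ | 1 ≤ m ∧ Embeds n a m}

/-! ### the construction -/

/-- the underlying set -/
abbrev V : Type := Bool × Fin 512 × Fin 8

/-- the two points of the image of `a` -/
def pt (c : Bool) : V := (c, 0, 0)

/-- the sandwich element -/
def av (v : V) : V := pt v.1

/-- at most two values -/
def Low (z : V → V) : Prop := ∀ i j, z i ≠ z (pt false) → z j ≠ z (pt false) → z i = z j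

open Classical in
/-- the value other than the one at the base point -/
noncomputable def oth (z : V → V) : V :=
  if h : ∃ i, z i ≠ z (pt false) then z h.choose else z (pt false)

open Classical in
/-- the label other than the one at the base point -/
noncomputable def lab (z : V → V) : Bool :=
  if ∃ i, (z i).1 ≠ (z (pt false)).1 then !(z (pt false)).1 else (z (pt false)).1

/-- points of the target -/
inductive Om : Type
  | o1 (c : Bool) (d : Fin 512)
  | o2 (c : Bool) (d : Fin 8)
  | fl (c f : Bool)
  | pat (b : Fin 8 → Bool) (c c' : Bool)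
  | k1
  | k2
  | eps
  | src (c : Bool) (d : Fin 512)
  | sg (l : Fin 10923)

/-- as a sum type -/
abbrev OmSum : Type := (Bool × Fin 512) ⊕ (Bool × Fin 8) ⊕ (Bool × Bool) ⊕
  ((Fin 8 → Bool) × Bool × Bool) ⊕ (Fin 3) ⊕ (Bool × Fin 512) ⊕ (Fin 10923)

def toSum : Om → OmSum
  | .o1 c d => .inl (c, d)
  | .o2 c d => .inr (.inl (c, d))
  | .fl c f => .inr (.inr (.inl (c, f)))
  | .pat b c c' => .inr (.inr (.inr (.inl (b, c, c'))))
  | .k1 => .inr (.inr (.inr (.inr (.inl 0))))
  | .k2 => .inr (.inr (.inr (.inr (.inl 1))))
  | .eps => .inr (.inr (.inr (.inr (.inl 2))))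
  | .src c d => .inr (.inr (.inr (.inr (.inr (.inl (c, d))))))
  | .sg l => .inr (.inr (.inr (.inr (.inr (.inr l)))))

def ofSum : OmSum → Om
  | .inl (c, d) => .o1 c d
  | .inr (.inl (c, d)) => .o2 c d
  | .inr (.inr (.inl (c, f))) => .fl c f
  | .inr (.inr (.inr (.inl (b, c, c')))) => .pat b c c'
  | .inr (.inr (.inr (.inr (.inl 0)))) => .k1
  | .inr (.inr (.inr (.inr (.inl 1)))) => .k2
  | .inr (.inr (.inr (.inr (.inl 2)))) => .eps
  | .inr (.inr (.inr (.inr (.inr (.inl (c, d)))))) => .src c d
  | .inr (.inr (.inr (.inr (.inr (.inr l))))) => .sg l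

def omEquiv : Om ≃ OmSum where
  toFun := toSum
  invFun := ofSum
  left_inv x := by cases x <;> rfl
  right_inv x := by
    rcases x with ⟨c, d⟩ | ⟨c, d⟩ | ⟨c, f⟩ | ⟨b, c, c'⟩ | i | ⟨c, d⟩ | l
    · rfl
    · rfl
    · rfl
    · rfl
    · fin_cases i <;> rfl
    · rfl
    · rfl

lemma card_om : Fintype.card OmSum = 14018 := by
  simp [Fintype.card_sum, Fintype.card_prod]

lemma exists_code : ∃ G : (V → Fin 512 × Fin 8) → (Fin 10923 → Fin 512), Function.Injective G := by
  have h : Fintype.card (V → Fin 512 × Fin 8) ≤ Fintype.card (Fin 10923 → Fin 512) := by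
    rw [Fintype.card_fun, Fintype.card_fun]
    have e1 : Fintype.card (Fin 512 × Fin 8) = 2 ^ 12 := by simp
    have e2 : Fintype.card V = 8192 := by simp
    have e3 : Fintype.card (Fin 10923) = 10923 := Fintype.card_fin _
    have e4 : Fintype.card (Fin 512) = 2 ^ 9 := by simp
    rw [e1, e2, e3, e4, ← pow_mul, ← pow_mul]
    exact Nat.pow_le_pow_right (by norm_num) (by norm_num)
  obtain ⟨f⟩ := Function.Embedding.nonempty_of_card_le h
  exact ⟨f, f.injective⟩

noncomputable def G : (V → Fin 512 × Fin 8) → (Fin 10923 → Fin 512) := exists_code.choose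
lemma G_inj : Function.Injective G := exists_code.choose_spec

open Classical in
/-- the action -/
noncomputable def act (x : V → V) : Om → Om
  | .o1 c _ => .o1 (x (pt c)).1 (x (pt c)).2.1
  | .o2 c _ => .o2 (x (pt c)).1 (x (pt c)).2.2
  | .fl c _ => .fl (x (pt c)).1 false
  | .pat b c c' => if x (pt c) ≠ x (pt c') then .pat b (x (pt c)).1 (x (pt c')).1
      else .pat (fun _ => false) (x (pt c)).1 (x (pt c)).1
  | .k1 => if Low x then .o1 (oth x).1 (oth x).2.1 else .o1 (lab x) 0
  | .k2 => if Low x then .o2 (oth x).1 (oth x).2.2 else .o2 (lab x) 0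
  | .eps => .fl (x (pt false)).1 (if Low x then false else true)
  | .src c d => if Low x
      then .pat (fun p => decide (x (c, d, p) ≠ x (pt false))) (x (pt false)).1 (oth x).1
      else .pat (fun p => decide ((x (c, d, p)).1 ≠ (x (pt false)).1)) (x (pt false)).1 (lab x)
  | .sg l => .o1 (x (pt false)).1
      (if Low x then (x (pt false)).2.1 else G (fun i => (x i).2) l)

lemma act_pat_eq {x : V → V} {b : Fin 8 → Bool} {c c' : Bool} (h : x (pt c) = x (pt c')) :
    act x (.pat b c c') = .pat (fun _ => false) (x (pt c)).1 (x (pt c)).1 := by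
  simp only [act]
  rw [if_neg (not_not.2 h)]

lemma act_pat_ne {x : V → V} {b : Fin 8 → Bool} {c c' : Bool} (h : x (pt c) ≠ x (pt c')) :
    act x (.pat b c c') = .pat b (x (pt c)).1 (x (pt c')).1 := by
  simp only [act]
  rw [if_pos h]

lemma oth_eq {z : V → V} (hz : Low z) {i : V} (hi : z i ≠ z (pt false)) : oth z = z i := by
  have h : ∃ i, z i ≠ z (pt false) := ⟨i, hi⟩
  rw [oth, dif_pos h]
  exact hz _ _ h.choose_spec hi

lemma oth_const {z : V → V} (h : ∀ i, z i = z (pt false)) : oth z = z (pt false) := by
  rw [oth, dif_neg]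
  push Not
  exact h

lemma low_val {z : V → V} (hz : Low z) (i : V) : z i = z (pt false) ∨ z i = oth z := by
  by_cases h : z i = z (pt false)
  · exact Or.inl h
  · exact Or.inr (oth_eq hz h).symm

lemma oth_mem (z : V → V) : (∃ i, z i ≠ z (pt false) ∧ oth z = z i) ∨
    ((∀ i, z i = z (pt false)) ∧ oth z = z (pt false)) := by
  by_cases h : ∃ i, z i ≠ z (pt false)
  · left
    refine ⟨h.choose, h.choose_spec, ?_⟩
    rw [oth, dif_pos h]
  · right
    push Not at h
    exact ⟨h, oth_const h⟩

lemma lab_mem (z : V → V) : (∃ i, (z i).1 ≠ (z (pt false)).1 ∧ lab z = (z i).1) ∨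
    ((∀ i, (z i).1 = (z (pt false)).1) ∧ lab z = (z (pt false)).1) := by
  by_cases h : ∃ i, (z i).1 ≠ (z (pt false)).1
  · left
    obtain ⟨i, hi⟩ := h
    refine ⟨i, hi, ?_⟩
    rw [lab, if_pos ⟨i, hi⟩]
    revert hi
    cases (z i).1 <;> cases (z (pt false)).1 <;> simp
  · right
    have h' := h
    push Not at h'
    exact ⟨h', by rw [lab, if_neg h]⟩

lemma lab_val (z : V → V) (i : V) : (z i).1 = (z (pt false)).1 ∨ (z i).1 = lab z := by
  by_cases h : (z i).1 = (z (pt false)).1
  · exact Or.inl h
  · right
    rw [lab, if_pos ⟨i, h⟩]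
    revert h
    cases (z i).1 <;> cases (z (pt false)).1 <;> simp

lemma low_comp (x z : V → V) : Low (x ∘ av ∘ z) := by
  intro i j hi hj
  simp only [Function.comp_apply, av] at *
  have h1 : (z i).1 ≠ (z (pt false)).1 := fun h => hi (by rw [h])
  have h2 : (z j).1 ≠ (z (pt false)).1 := fun h => hj (by rw [h])
  have h3 : (z i).1 = (z j).1 := by
    revert h1 h2
    cases (z i).1 <;> cases (z (pt false)).1 <;> cases (z j).1 <;> simp
  rw [h3]

lemma comp_val (x z : V → V) (i : V) : (x ∘ av ∘ z) i = x (pt (z i).1) := rfl

/-- the other value of a product -/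
lemma oth_comp_low (x z : V → V) (hz : Low z) : oth (x ∘ av ∘ z) = x (pt (oth z).1) := by
  rcases oth_mem z with ⟨i, hi, ho⟩ | ⟨hc, ho⟩
  · by_cases h : (x ∘ av ∘ z) i = (x ∘ av ∘ z) (pt false)
    · rw [oth_const, ← h, comp_val, ho]
      intro j
      rcases low_val hz j with hj | hj
      · rw [comp_val, hj]; rfl
      · rw [comp_val, hj, ho, ← h]; rfl
    · rw [oth_eq (low_comp x z) h, comp_val, ho]
  · rw [oth_const, comp_val, ho]
    intro j
    rw [comp_val, hc j]; rfl

lemma oth_comp_high (x z : V → V) : oth (x ∘ av ∘ z) = x (pt (lab z)) := by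
  rcases lab_mem z with ⟨i, hi, hl⟩ | ⟨hc, hl⟩
  · by_cases h : (x ∘ av ∘ z) i = (x ∘ av ∘ z) (pt false)
    · rw [oth_const, ← h, comp_val, hl]
      intro j
      rcases lab_val z j with hj | hj
      · rw [comp_val, hj]; rfl
      · rw [comp_val, hj, hl, ← h]; rfl
    · rw [oth_eq (low_comp x z) h, comp_val, hl]
  · rw [oth_const, comp_val, hl]
    intro j
    rw [comp_val, hc j]; rfl

/-- The action is multiplicative. -/
lemma act_comp (x z : V → V) : act (x ∘ av ∘ z) = act x ∘ act z := by
  classical
  have hlow := low_comp x z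
  funext w
  rw [Function.comp_apply]
  cases w with
  | o1 c d => rfl
  | o2 c d => rfl
  | fl c f => rfl
  | pat b c c' =>
    by_cases h : z (pt c) = z (pt c')
    · rw [act_pat_eq h, act_pat_eq (x := x) rfl, act_pat_eq (by rw [comp_val, comp_val, h]),
        comp_val]
    · rw [act_pat_ne h]
      by_cases h' : x (pt (z (pt c)).1) = x (pt (z (pt c')).1)
      · rw [act_pat_eq h', act_pat_eq (by rw [comp_val, comp_val, h']), comp_val]
      · rw [act_pat_ne h', act_pat_ne (by rw [comp_val, comp_val]; exact h'), comp_val, comp_val]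
  | k1 =>
    simp only [act]
    rw [if_pos hlow]
    by_cases hz : Low z
    · rw [if_pos hz, oth_comp_low x z hz]
    · rw [if_neg hz, oth_comp_high x z]
  | k2 =>
    simp only [act]
    rw [if_pos hlow]
    by_cases hz : Low z
    · rw [if_pos hz, oth_comp_low x z hz]
    · rw [if_neg hz, oth_comp_high x z]
  | eps =>
    simp only [act]
    rw [if_pos hlow, comp_val]
  | src c d =>
    simp only [act]
    rw [if_pos hlow]
    by_cases hz : Low z
    · rw [if_pos hz, oth_comp_low x z hz]
      simp only
      by_cases h : x (pt (z (pt false)).1) = x (pt (oth z).1)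
      · rw [if_neg (not_not.2 h)]
        have hb : (fun p => decide ((x ∘ av ∘ z) (c, d, p) ≠ (x ∘ av ∘ z) (pt false))) =
            fun _ => false := by
          funext p
          rw [decide_eq_false_iff_not, not_not, comp_val, comp_val]
          rcases low_val hz (c, d, p) with hj | hj
          · rw [hj]
          · rw [hj, h]
        rw [hb, comp_val, ← h]
      · rw [if_pos h]
        have hb : (fun p => decide ((x ∘ av ∘ z) (c, d, p) ≠ (x ∘ av ∘ z) (pt false))) =
            fun p => decide (z (c, d, p) ≠ z (pt false)) := by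
          funext p
          rw [decide_eq_decide, comp_val, comp_val]
          rcases low_val hz (c, d, p) with hj | hj
          · rw [hj]; simp
          · rw [hj]
            constructor
            · intro h1 h2
              exact h1 (by rw [h2])
            · intro _ h2
              exact h h2.symm
        rw [hb, comp_val]
    · rw [if_neg hz, oth_comp_high x z]
      simp only
      by_cases h : x (pt (z (pt false)).1) = x (pt (lab z))
      · rw [if_neg (not_not.2 h)]
        have hb : (fun p => decide ((x ∘ av ∘ z) (c, d, p) ≠ (x ∘ av ∘ z) (pt false))) =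
            fun _ => false := by
          funext p
          rw [decide_eq_false_iff_not, not_not, comp_val, comp_val]
          rcases lab_val z (c, d, p) with hj | hj
          · rw [hj]
          · rw [hj, h]
        rw [hb, comp_val, ← h]
      · rw [if_pos h]
        have hb : (fun p => decide ((x ∘ av ∘ z) (c, d, p) ≠ (x ∘ av ∘ z) (pt false))) =
            fun p => decide ((z (c, d, p)).1 ≠ (z (pt false)).1) := by
          funext p
          rw [decide_eq_decide, comp_val, comp_val]
          rcases lab_val z (c, d, p) with hj | hj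
          · rw [hj]; simp
          · rw [hj]
            constructor
            · intro h1 h2
              exact h1 (by rw [h2])
            · intro _ h2
              exact h h2.symm
        rw [hb, comp_val]
  | sg l =>
    simp only [act]
    rw [if_pos hlow, comp_val]

/-- The action is faithful. -/
lemma act_inj : Function.Injective act := by
  classical
  intro z z' h
  have hw : ∀ w, act z w = act z' w := fun w => congrFun h w
  have h1 := hw (.o1 false 0)
  have h2 := hw (.o2 false 0)
  simp only [act, Om.o1.injEq, Om.o2.injEq] at h1 h2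
  have h0 : z (pt false) = z' (pt false) := Prod.ext h1.1 (Prod.ext h1.2 h2.2)
  have h3 := hw .eps
  simp only [act, Om.fl.injEq] at h3
  by_cases hz : Low z
  · have hz' : Low z' := by
      by_contra hcon
      rw [if_pos hz, if_neg hcon] at h3
      exact absurd h3.2 (by simp)
    have h4 := hw .k1
    have h5 := hw .k2
    simp only [act] at h4 h5
    rw [if_pos hz, if_pos hz'] at h4 h5
    simp only [Om.o1.injEq, Om.o2.injEq] at h4 h5
    have ho : oth z = oth z' := Prod.ext h4.1 (Prod.ext h4.2 h5.2)
    funext i
    obtain ⟨c, d, p⟩ := i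
    have h6 := hw (.src c d)
    simp only [act] at h6
    rw [if_pos hz, if_pos hz'] at h6
    simp only [Om.pat.injEq] at h6
    have h7 := congrFun h6.1 p
    simp only [decide_eq_decide] at h7
    by_cases hi : z (c, d, p) = z (pt false)
    · have hi' : z' (c, d, p) = z' (pt false) := by
        by_contra hcon
        exact (h7.2 hcon) hi
      rw [hi, hi', h0]
    · have hi' := h7.1 hi
      rw [← oth_eq hz hi, ← oth_eq hz' hi', ho]
  · have hz' : ¬ Low z' := by
      intro hcon
      rw [if_neg hz, if_pos hcon] at h3
      exact absurd h3.2 (by simp)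
    have hG : (fun i => (z i).2) = fun i => (z' i).2 := by
      apply G_inj
      funext l
      have h4 := hw (.sg l)
      simp only [act] at h4
      rw [if_neg hz, if_neg hz'] at h4
      simp only [Om.o1.injEq] at h4
      exact h4.2
    funext i
    obtain ⟨c, d, p⟩ := i
    have h6 := hw (.src c d)
    simp only [act] at h6
    rw [if_neg hz, if_neg hz'] at h6
    simp only [Om.pat.injEq] at h6
    have h7 := congrFun h6.1 p
    simp only [decide_eq_decide] at h7
    refine Prod.ext ?_ (congrFun hG (c, d, p))
    have h8 : (z (pt false)).1 = (z' (pt false)).1 := by rw [h0]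
    revert h7 h8
    cases (z (c, d, p)).1 <;> cases (z' (c, d, p)).1 <;> cases (z (pt false)).1 <;>
      cases (z' (pt false)).1 <;> simp

lemma card_V : Fintype.card V = 8192 := by simp

/-- **MP_e4b752_al, Q1 is false.** -/
theorem result : ¬ ∀ (n : ℕ) (a : Fin n → Fin n), 2 ≤ rank a →
    minDegree n a = 2 * n - rank a := by
  intro h
  let e : V ≃ Fin 8192 := Fintype.equivFinOfCardEq card_V
  let f : Om ≃ Fin 14018 := omEquiv.trans (Fintype.equivFinOfCardEq card_om)
  set a : Fin 8192 → Fin 8192 := fun i => e (av (e.symm i)) with ha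
  have hrank : rank a = 2 := by
    have hr : Set.range a = {e (pt false), e (pt true)} := by
      ext j
      constructor
      · rintro ⟨i, rfl⟩
        simp only [ha, av]
        cases (e.symm i).1 <;> simp
      · rintro (rfl | rfl)
        · exact ⟨e (pt false), by simp [ha, av, pt]⟩
        · exact ⟨e (pt true), by simp [ha, av, pt]⟩
    rw [rank, hr, Set.ncard_pair]
    intro hcon
    have := e.injective hcon
    simp [pt] at this
  have hemb : Embeds 8192 a 14018 := by
    refine ⟨fun x => fun k => f (act (fun v => e.symm (x (e v))) (f.symm k)), ?_, ?_⟩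
    · intro x y hxy
      have h1 : act (fun v => e.symm (x (e v))) = act (fun v => e.symm (y (e v))) := by
        funext w
        have := congrFun hxy (f w)
        simpa using this
      have h2 := act_inj h1
      funext i
      have := congrFun h2 (e.symm i)
      simpa using this
    · intro x y
      funext k
      have h1 : (fun v => e.symm ((x ∘ a ∘ y) (e v))) =
          (fun v => e.symm (x (e v))) ∘ av ∘ (fun v => e.symm (y (e v))) := by
        funext v
        simp [ha]
      change f (act (fun v => e.symm ((x ∘ a ∘ y) (e v))) (f.symm k)) =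
        f (act (fun v => e.symm (x (e v))) (f.symm (f (act (fun v => e.symm (y (e v)))
          (f.symm k)))))
      rw [h1, act_comp, Equiv.symm_apply_apply, Function.comp_apply]
  have h1 := h 8192 a (by rw [hrank])
  rw [hrank] at h1
  have h2 : minDegree 8192 a ≤ 14018 := Nat.sInf_le ⟨by norm_num, hemb⟩
  omega

end Pool.Agent.Results.MP_e4b752_al.SmallDegree
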